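import Pool.Agent.Helper26.LU.Goals

/-!
# Project LU, packet TA: the chain map is admissible
-/

namespace Pool.Agent.Helper11.LU

open MeasureTheory Matrix Real Filter Topology
open Pool.Agent.Helper26.LU

variable {E : Type} [NormedAddCommGroup E] [NormedSpace ℝ E]

/-- All entries of the matrix valued function are smooth at the point. -/
def SM (A : E → M3) (x₀ : E) : Prop := ∀ i j, ContDiffAt ℝ 2 (fun x => A x i j) x₀

/-- All coordinates of the vector valued function are smooth at the point. -/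
def SV (v : E → V) (x₀ : E) : Prop := ∀ i, ContDiffAt ℝ 2 (fun x => v x i) x₀

theorem SM_mul {A B : E → M3} {x₀ : E} (hA : SM A x₀) (hB : SM B x₀) :
    SM (fun x => A x * B x) x₀ := by
  intro i j
  have : (fun x => (A x * B x) i j) = fun x => ∑ k, A x i k * B x k j := by
    funext x
    rw [Matrix.mul_apply]
  rw [this]
  exact ContDiffAt.sum fun k _ => (hA i k).mul (hB k j)

theorem SM_const (A : M3) (x₀ : E) : SM (fun _ : E => A) x₀ := fun _ _ => contDiffAt_const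

theorem SV_const (v : V) (x₀ : E) : SV (fun _ : E => v) x₀ := fun _ => contDiffAt_const

theorem SV_mulVec {A : E → M3} {v : E → V} {x₀ : E} (hA : SM A x₀) (hv : SV v x₀) :
    SV (fun x => A x *ᵥ v x) x₀ := by
  intro i
  have : (fun x => (A x *ᵥ v x) i) = fun x => ∑ k, A x i k * v x k := by
    funext x
    rfl
  rw [this]
  exact ContDiffAt.sum fun k _ => (hA i k).mul (hv k)

theorem SV_dot {v w : E → V} {x₀ : E} (hv : SV v x₀) (hw : SV w x₀) :
    ContDiffAt ℝ 2 (fun x => v x ⬝ᵥ w x) x₀ := by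
  have : (fun x => v x ⬝ᵥ w x) = fun x => ∑ k, v x k * w x k := rfl
  rw [this]
  exact ContDiffAt.sum fun k _ => (hv k).mul (hw k)

theorem SV_add {v w : E → V} {x₀ : E} (hv : SV v x₀) (hw : SV w x₀) :
    SV (fun x => v x + w x) x₀ := fun i => (hv i).add (hw i)

theorem SV_proj {v : E → V} {x₀ : E} (hv : SV v x₀) (h0 : v x₀ ≠ 0) :
    SV (fun x => proj (v x)) x₀ := by
  have hd : v x₀ ⬝ᵥ v x₀ ≠ 0 := by
    intro h
    exact h0 (dotProduct_self_eq_zero.1 h)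
  have hn : ContDiffAt ℝ 2 (fun x => nrm (v x)) x₀ := (SV_dot hv hv).sqrt hd
  intro i
  have : (fun x => proj (v x) i) = fun x => (nrm (v x))⁻¹ * v x i := rfl
  rw [this]
  exact (hn.inv (nrm_pos h0).ne').mul (hv i)

theorem SM_crossM {w : E → V} {x₀ : E} (hw : SV w x₀) : SM (fun x => crossM (w x)) x₀ := by
  intro i j
  fin_cases i <;> fin_cases j
  · exact contDiffAt_const
  · exact (hw 2).neg
  · exact hw 1
  · exact hw 2
  · exact contDiffAt_const
  · exact (hw 0).neg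
  · exact (hw 1).neg
  · exact hw 0
  · exact contDiffAt_const

theorem SV_cross {v w : E → V} {x₀ : E} (hv : SV v x₀) (hw : SV w x₀) :
    SV (fun x => crossProduct (v x) (w x)) x₀ := by
  intro i
  fin_cases i
  · have : (fun x => crossProduct (v x) (w x) 0) = fun x => v x 1 * w x 2 - v x 2 * w x 1 := by
      funext x
      simp [cross_apply]
    exact this ▸ ((hv 1).mul (hw 2)).sub ((hv 2).mul (hw 1))
  · have : (fun x => crossProduct (v x) (w x) 1) = fun x => v x 2 * w x 0 - v x 0 * w x 2 := by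
      funext x
      simp [cross_apply]
    exact this ▸ ((hv 2).mul (hw 0)).sub ((hv 0).mul (hw 2))
  · have : (fun x => crossProduct (v x) (w x) 2) = fun x => v x 0 * w x 1 - v x 1 * w x 0 := by
      funext x
      simp [cross_apply]
    exact this ▸ ((hv 0).mul (hw 1)).sub ((hv 1).mul (hw 0))

theorem SM_Bm {p q : E → V} {x₀ : E} (hp : SV p x₀) (hq : SV q x₀)
    (h : 1 + p x₀ ⬝ᵥ q x₀ ≠ 0) : SM (fun x => Bm (p x) (q x)) x₀ := by
  have hC := SM_crossM (SV_cross hp hq)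
  have hCC := SM_mul hC hC
  have hi : ContDiffAt ℝ 2 (fun x => (1 + p x ⬝ᵥ q x)⁻¹) x₀ :=
    (contDiffAt_const.add (SV_dot hp hq)).inv h
  intro i j
  have : (fun x => Bm (p x) (q x) i j) = fun x => (1 : M3) i j +
      crossM (crossProduct (p x) (q x)) i j + (1 + p x ⬝ᵥ q x)⁻¹ *
        (crossM (crossProduct (p x) (q x)) * crossM (crossProduct (p x) (q x))) i j := by
    funext x
    simp only [Bm, Matrix.add_apply, Matrix.smul_apply, smul_eq_mul]
  rw [this]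
  exact (contDiffAt_const.add (hC i j)).add (hi.mul (hCC i j))

theorem SM_Rot {f : E → ℝ} {x₀ : E} (hf : ContDiffAt ℝ 2 f x₀) :
    SM (fun x => Rot (f x)) x₀ := by
  intro i j
  fin_cases i <;> fin_cases j
  · exact hf.cos
  · exact hf.sin.neg
  · exact contDiffAt_const
  · exact hf.sin
  · exact hf.cos
  · exact contDiffAt_const
  · exact contDiffAt_const
  · exact contDiffAt_const
  · exact contDiffAt_const

theorem par_smooth {N : ℕ} {a : E → Idx N → ℝ} {Q : E → M3} {x₀ : E}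
    (ha : ContDiffAt ℝ 2 a x₀) (hQ : SM Q x₀) :
    ContDiffAt ℝ 2 (fun x => ((a x, fun i j => Q x i j) : Par N)) x₀ := by
  refine ha.prodMk ?_
  rw [contDiffAt_pi]
  intro i
  rw [contDiffAt_pi]
  intro j
  exact hQ i j

theorem SV_yv (h1 : G_S1) {N : ℕ} (M : ℕ) {a : E → Idx N → ℝ} {R : E → M3} {x₀ : E}
    (ha : ContDiffAt ℝ 2 a x₀) (hR : SM R x₀) (j : Fin 4) :
    SV (fun x => yv M (a x) (R x) j) x₀ := by
  have hT : ContDiffAt ℝ 2 (fun x => Ti (a x) (R x) M) x₀ :=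
    ContDiffAt.comp (f := fun x => ((a x, fun i j => R x i j) : Par N))
      (g := fun x : Par N => Ti x.1 (Matrix.of x.2 : M3) M) x₀
      ((h1 N M).contDiffAt) (par_smooth ha hR)
  rw [contDiffAt_pi] at hT
  exact SV_add (SV_mulVec hR (SV_const (e j) x₀)) hT

theorem SM_Rk (h2 : G_S2) {N : ℕ} (M k : ℕ) {a : E → Idx N → ℝ} {Q : E → M3} {x₀ : E}
    (ha : ContDiffAt ℝ 2 a x₀) (hQ : SM Q x₀) (h0 : a x₀ = 0) (hS : Q x₀ ∈ SO3) :
    SM (fun x => Rk M (a x) (Q x) k) x₀ := by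
  have hg := h2 N M k (Q x₀) hS
  have hT : ContDiffAt ℝ 2 (fun x => (fun i j => Rk M (a x) (Q x) k i j : Fin 3 → Fin 3 → ℝ))
      x₀ := by
    refine ContDiffAt.comp (f := fun x => ((a x, fun i j => Q x i j) : Par N))
      (g := fun x : Par N =>
        (fun i j => Rk M x.1 (Matrix.of x.2 : M3) k i j : Fin 3 → Fin 3 → ℝ)) x₀
      ?_ (par_smooth ha hQ)
    have : ((a x₀, fun i j => Q x₀ i j) : Par N) = (0, Q x₀) := by
      rw [h0]
      rfl
    rw [this]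
    exact hg
  intro i j
  rw [contDiffAt_pi] at hT
  have hi := hT i
  rw [contDiffAt_pi] at hi
  exact hi j

theorem SM_Qp (h1 : G_S1) (h2 : G_S2) {N : ℕ} (M : ℕ) {a : E → Idx N → ℝ} {Q : E → M3}
    {f g : E → ℝ} {x₀ : E} (ha : ContDiffAt ℝ 2 a x₀) (hQ : SM Q x₀) (hf : ContDiffAt ℝ 2 f x₀)
    (hg : ContDiffAt ℝ 2 g x₀) (h0 : a x₀ = 0) (hS : Q x₀ ∈ SO3) (j : Fin 4) :
    SM (fun x => Qp M (a x) (Q x) j (f x) (g x)) x₀ := by
  have hQR : SM (fun x => Q x * Rot (f x)) x₀ := SM_mul hQ (SM_Rot hf)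
  have hQRS : Q x₀ * Rot (f x₀) ∈ SO3 := SO3_mul hS (Rot_SO3 _)
  have hR := SM_Rk h2 M M ha hQR h0 hQRS
  have hy := SV_yv h1 M ha hR j
  have hR0 : Rk M (a x₀) (Q x₀ * Rot (f x₀)) M = Q x₀ * Rot (f x₀) := by
    rw [h0]
    exact Rk_zero M hQRS M
  have hy0 : yv M (a x₀) (Rk M (a x₀) (Q x₀ * Rot (f x₀)) M) j
      = (Q x₀ * Rot (f x₀)) *ᵥ e j := by
    rw [hR0, h0, yv_zero]
  have hs : (Q x₀ * Rot (f x₀)) *ᵥ e j ∈ sph := mulVec_sph hQRS (e_sph j)
  have hyh : SV (fun x => yh M (a x) (Rk M (a x) (Q x * Rot (f x)) M) j) x₀ := by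
    refine SV_proj hy ?_
    show yv M (a x₀) (Rk M (a x₀) (Q x₀ * Rot (f x₀)) M) j ≠ 0
    rw [hy0]
    exact sph_ne hs
  have hyh0 : yh M (a x₀) (Rk M (a x₀) (Q x₀ * Rot (f x₀)) M) j
      = (Q x₀ * Rot (f x₀)) *ᵥ e j := by
    unfold yh
    rw [hy0]
    exact proj_self hs
  have hB : SM (fun x => Bm ((Q x * Rot (f x)) *ᵥ e j)
      (yh M (a x) (Rk M (a x) (Q x * Rot (f x)) M) j)) x₀ := by
    refine SM_Bm (SV_mulVec hQR (SV_const (e j) x₀)) hyh ?_
    show 1 + ((Q x₀ * Rot (f x₀)) *ᵥ e j) ⬝ᵥ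
      (yh M (a x₀) (Rk M (a x₀) (Q x₀ * Rot (f x₀)) M) j) ≠ 0
    rw [hyh0]
    have : ((Q x₀ * Rot (f x₀)) *ᵥ e j) ⬝ᵥ ((Q x₀ * Rot (f x₀)) *ᵥ e j) = 1 := hs
    rw [this]
    norm_num
  exact SM_mul (SM_mul (SM_mul hB hQR) (SM_const (sg j) x₀)) (SM_Rot hg)

theorem FA_smooth (h1 : G_S1) (h2 : G_S2) (N M : ℕ) (j k : Fin 4) (Q : M3) (hQ : Q ∈ SO3)
    (z : ℝ × ℝ) : ContDiffAt ℝ 2 (FA N M j k) ((0, Q), z) := by
  have ha : ContDiffAt ℝ 2 (fun x : Par N × ℝ × ℝ => x.1.1) ((0, Q), z) :=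
    (contDiff_fst.comp contDiff_fst).contDiffAt
  have hQm : SM (fun x : Par N × ℝ × ℝ => (Matrix.of x.1.2 : M3)) ((0, Q), z) := by
    intro i l
    have h : ContDiff ℝ 2 (fun x : Par N × ℝ × ℝ => x.1.2 i l) := by fun_prop
    exact h.contDiffAt
  have hf : ContDiffAt ℝ 2 (fun x : Par N × ℝ × ℝ => x.2.1) ((0, Q), z) :=
    (contDiff_fst.comp contDiff_snd).contDiffAt
  have hg : ContDiffAt ℝ 2 (fun x : Par N × ℝ × ℝ => x.2.2) ((0, Q), z) :=
    (contDiff_snd.comp contDiff_snd).contDiffAt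
  have hqp := SM_Qp h1 h2 M ha hQm hf hg rfl hQ j
  have hqp0 : Qp M (0 : Idx N → ℝ) Q j z.1 z.2 ∈ SO3 := by
    rw [Qp_zero M hQ j z.1 z.2]
    exact SO3_mul (SO3_mul (SO3_mul hQ (Rot_SO3 _)) (sg_SO3 j)) (Rot_SO3 _)
  have hR := SM_Rk h2 M M ha hqp rfl hqp0
  have hy := SV_yv h1 M ha hR k
  rw [contDiffAt_pi]
  exact hy

/-- **TA. The chain map is admissible.** -/
theorem gTA (h1 : G_S1) (h2 : G_S2) (hT2 : G_T2) : G_TA := by
  intro N M j k hj hk
  refine ⟨?_, ?_, ?_, ?_, ?_, ?_⟩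
  · intro p x y
    constructor
    · simp only [FA, Qp, Rot_per]
    · simp only [FA, Qp, Rot_per]
  · intro p x y
    exact ⟨rfl, rfl⟩
  · intro Q hQ z
    exact FA_smooth h1 h2 N M j k Q hQ z
  · intro Q hQ z
    exact contDiffAt_const
  · intro Q hQ z
    have h := FA_zero N M hQ j k z.1 z.2
    have h' : FA N M j k ((0, Q), z) = (Q * Rot z.1 * sg j * Rot z.2) *ᵥ e k := h
    rw [h']
    exact sph_ne (mulVec_sph (SO3_mul (SO3_mul (SO3_mul hQ (Rot_SO3 _)) (sg_SO3 j)) (Rot_SO3 _))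
      (e_sph k))
  · intro Q hQ
    have h := hT2 Q hQ (sg j) (sg_SO3 j) j k (sg_e0 j) hj hk
    have hF : (fun z : ℝ × ℝ => FA N M j k ((0, Q), z))
        = fun z : ℝ × ℝ => (Q * Rot z.1 * sg j * Rot z.2) *ᵥ e k := by
      funext z
      exact FA_zero N M hQ j k z.1 z.2
    rw [hF]
    exact h

end Pool.Agent.Helper11.LU
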